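import Pool.Agent.Y645.UM.Stm

/-!
# Project UP: transcendence degree against the isogeny rank
-/

set_option autoImplicit false

namespace Pool.Agent.Y845.UP

open Pool.Agent.Y645.UL Pool.Agent.Y645.UM

theorem td_sum {k L ι κ : Type} [Field k] [Field L] [Algebra k L] [Finite ι] [Finite κ]
    (a : ι → L) (b : κ → L) : td k (Sum.elim a b) ≤ td k a + Nat.card κ := by
  have h1 : ((td k (Sum.elim a b) : ℕ) : ℕ∞) ≤ ((td k a + Nat.card κ : ℕ) : ℕ∞) := by
    rw [Nat.cast_add, coe_td, coe_td, Set.Sum.elim_range]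
    refine ((AlgebraicIndependent.matroid k L).eRk_union_le_eRk_add_eRk _ _).trans ?_
    refine add_le_add le_rfl ?_
    refine ((AlgebraicIndependent.matroid k L).eRk_le_encard _).trans ?_
    rw [← Set.image_univ]
    refine (Set.encard_image_le _ _).trans ?_
    rw [Set.encard_univ, ENat.card_eq_coe_natCard]
  exact_mod_cast h1

/-- classes of a subfamily -/
theorem card_classes {A B : Type} [Finite A] [Finite B] (R : A → A → Prop) (R' : B → B → Prop)
    (hR : Equivalence R) (g : B → A) (hg : ∀ i j, R' i j ↔ R (g i) (g j)) :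
    ∃ (κ : Type) (_ : Finite κ) (r : κ → A), (∀ a, (∃ i, R (g i) a) ∨ ∃ c, R (r c) a) ∧
      Nat.card κ + Nat.card (Quot R') ≤ Nat.card (Quot R) := by
  have hq : ∀ i j, Quot.mk R i = Quot.mk R j → R i j := fun i j h =>
    (hR.eqvGen_iff).1 (Quot.eqvGen_exact h)
  have hf : Function.Injective (Quot.map g (fun i j h => (hg i j).1 h) : Quot R' → Quot R) := by
    intro q1 q2
    induction q1 using Quot.ind with | _ i => ?_
    induction q2 using Quot.ind with | _ j => ?_
    intro h
    exact Quot.sound ((hg i j).2 (hq _ _ h))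
  refine ⟨{q : Quot R // q ∉ Set.range (Quot.map g (fun i j h => (hg i j).1 h) :
    Quot R' → Quot R)}, inferInstance, fun c => Quot.out c.1, ?_, ?_⟩
  · intro a
    by_cases hm : Quot.mk R a ∈ Set.range (Quot.map g (fun i j h => (hg i j).1 h) :
      Quot R' → Quot R)
    · obtain ⟨q, hq1⟩ := hm
      obtain ⟨i, rfl⟩ := Quot.exists_rep q
      exact Or.inl ⟨i, hq _ _ hq1⟩
    · exact Or.inr ⟨⟨_, hm⟩, hq _ _ (Quot.out_eq _)⟩
  · rw [← Nat.card_sum]
    refine Nat.card_le_card_of_injective (Sum.elim Subtype.val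
      (Quot.map g (fun i j h => (hg i j).1 h))) ?_
    refine Function.Injective.sumElim Subtype.val_injective hf ?_
    intro a b h
    exact a.2 ⟨b, h.symm⟩

theorem alg_base {k L : Type} [Field k] [Field L] [Algebra k L] (S : Set L) (c : k) :
    IsAlgebraic (Algebra.adjoin k S) (algebraMap k L c) :=
  isAlgebraic_algebraMap (⟨algebraMap k L c, Subalgebra.algebraMap_mem _ c⟩ :
      Algebra.adjoin k S)

theorem core {k L J J' : Type} [Field k] [Field L] [Algebra k L] [Finite J] [Finite J']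
    (D : Data k) (hG : Good D) (y : J → L) (e : J' → J) :
    td k y + isoRk D (y ∘ e) ≤ isoRk D y + td k (y ∘ e) := by
  obtain ⟨hr, hs, ht, ha, -⟩ := hG.1 L
  have hRe : Equivalence (fun i j : {i : J // ¬ SpecAt D (y i)} => Rel D (y i) (y j)) :=
    ⟨fun i => hr _, fun h => hs _ _ h, fun h1 h2 => ht _ _ _ h1 h2⟩
  obtain ⟨κ, hκ, r, hf1, hf2⟩ := card_classes
    (fun i j : {i : J // ¬ SpecAt D (y i)} => Rel D (y i) (y j))
    (fun i j : {i : J' // ¬ SpecAt D ((y ∘ e) i)} => Rel D ((y ∘ e) i) ((y ∘ e) j)) hRe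
    (fun i => ⟨e i.1, i.2⟩) (fun i j => Iff.rfl)
  have hf3 : Nat.card κ + isoRk D (y ∘ e) ≤ isoRk D y := hf2
  have hz : ∀ j, IsAlgebraic (Algebra.adjoin k (Set.range (Sum.elim (y ∘ e)
      (fun c : κ => y (r c).1)))) (y j) := by
    intro j
    by_cases hj : SpecAt D (y j)
    · obtain ⟨c, -, hc⟩ := hj
      rw [hc]
      exact alg_base _ c
    · rcases hf1 ⟨j, hj⟩ with ⟨i, hi⟩ | ⟨c, hc⟩
      · refine alg_mono ?_ (ha _ _ hi)
        intro s hs
        rw [Set.mem_singleton_iff] at hs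
        rw [hs]
        exact Set.mem_range.2 ⟨Sum.inl i.1, rfl⟩
      · refine alg_mono ?_ (ha _ _ hc)
        intro s hs
        rw [Set.mem_singleton_iff] at hs
        rw [hs]
        exact Set.mem_range.2 ⟨Sum.inr c, rfl⟩
  have h1 := td_le_of_alg hz
  have h2 := td_sum (k := k) (y ∘ e) (fun c : κ => y (r c).1)
  omega

end Pool.Agent.Y845.UP
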