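import Pool.Agent.Y645.UP.Stm
import Pool.Agent.Y845.UP.TdIncCore

/-!
# Project UP: transcendence degree against the isogeny rank
-/

set_option autoImplicit false

namespace Pool.Agent.Y845.UP

theorem t_TDINC : Pool.Agent.Y645.UP.S_TDINC := by
  intro k L M J _ _ _ _ _ D hG y e
  exact core D hG y e

end Pool.Agent.Y845.UP
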